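import Pool.Agent.Lib.MP_fa837f_gt.TS.Iface

/-!
Project TS (MP_fa837f_gt), module DSV: volumes of a direct sum.
-/

set_option autoImplicit false

open MeasureTheory Set

namespace Pool.Agent.Lib.MP_fa837f_gt.TS.H30

open Pool.Agent.Lib.MP_fa837f_gt
open Pool.Agent.Lib.MP_fa837f_gt.TS

theorem box_meas {n : ℕ} (t : Fin n → ℝ) :
    MeasurableSet {x : EuclideanSpace ℝ (Fin n) | ∀ i, |x i| ≤ Real.exp (t i)} := by
  have h : {x : EuclideanSpace ℝ (Fin n) | ∀ i, |x i| ≤ Real.exp (t i)} =
      ⋂ i, {x | |x i| ≤ Real.exp (t i)} := by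
    ext x; simp
  rw [h]
  refine MeasurableSet.iInter fun i => ?_
  refine (isClosed_le ?_ continuous_const).measurableSet
  fun_prop

theorem cubeVol_eq {n : ℕ} (H : Submodule ℝ (EuclideanSpace ℝ (Fin n))) (t : Fin n → ℝ) :
    cubeVol H t = (lebesgue H {x : H | ∀ i, |(x : EuclideanSpace ℝ (Fin n)) i| ≤
      Real.exp (t i)}).toReal := by
  unfold cubeVol lebesgueOn
  rw [Measure.map_apply measurable_subtype_coe (box_meas t)]
  rfl

theorem dsv (hPar : ParStatement) : DsvStatement := by
  intro n m H₁ H₂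
  have hH1 : (lebesgue H₁).IsAddHaarMeasure := by unfold lebesgue; infer_instance
  have hH2 : (lebesgue H₂).IsAddHaarMeasure := by unfold lebesgue; infer_instance
  have hprod : ((lebesgue H₁).prod (lebesgue H₂)).IsAddHaarMeasure :=
    Measure.prod.instIsAddHaarMeasure _ _
  -- the parametrisation
  let F : (H₁ × H₂) →ₗ[ℝ] EuclideanSpace ℝ (Fin (n + m)) :=
    { toFun := fun q => WithLp.toLp 2 (Fin.append (fun i => (q.1 : EuclideanSpace ℝ (Fin n)) i)
        (fun j => (q.2 : EuclideanSpace ℝ (Fin m)) j))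
      map_add' := by
        intro x y
        ext i
        refine Fin.addCases (fun i => ?_) (fun j => ?_) i <;> simp
      map_smul' := by
        intro c x
        ext i
        refine Fin.addCases (fun i => ?_) (fun j => ?_) i <;> simp }
  have hF1 : ∀ (q : H₁ × H₂) (i : Fin n), F q (Fin.castAdd m i) =
      (q.1 : EuclideanSpace ℝ (Fin n)) i := by
    intro q i; simp [F]
  have hF2 : ∀ (q : H₁ × H₂) (j : Fin m), F q (Fin.natAdd n j) =
      (q.2 : EuclideanSpace ℝ (Fin m)) j := by
    intro q j; simp [F]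
  have hmem : ∀ q, F q ∈ dirSum H₁ H₂ := by
    intro q
    constructor
    · have h : (WithLp.toLp 2 fun i => F q (Fin.castAdd m i)) =
          (q.1 : EuclideanSpace ℝ (Fin n)) := by
        ext i; exact hF1 q i
      rw [h]; exact q.1.2
    · have h : (WithLp.toLp 2 fun j => F q (Fin.natAdd n j)) =
          (q.2 : EuclideanSpace ℝ (Fin m)) := by
        ext i; exact hF2 q i
      rw [h]; exact q.2.2
  let G : (H₁ × H₂) →ₗ[ℝ] dirSum H₁ H₂ := F.codRestrict _ hmem
  have hbij : Function.Bijective G := by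
    constructor
    · intro p q hpq
      have h : F p = F q := congrArg Subtype.val hpq
      apply Prod.ext
      · apply Subtype.ext
        ext i
        rw [← hF1 p i, ← hF1 q i, h]
      · apply Subtype.ext
        ext j
        rw [← hF2 p j, ← hF2 q j, h]
    · rintro ⟨x, hx1, hx2⟩
      refine ⟨(⟨_, hx1⟩, ⟨_, hx2⟩), ?_⟩
      apply Subtype.ext
      show F _ = x
      ext i
      refine Fin.addCases (fun i => ?_) (fun j => ?_) i
      · rw [hF1]
      · rw [hF2]
  obtain ⟨c, hc, hcS⟩ := hPar (n + m) (dirSum H₁ H₂) (H₁ × H₂)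
    ((lebesgue H₁).prod (lebesgue H₂)) (LinearEquiv.ofBijective G hbij)
  refine ⟨c, hc, ?_⟩
  intro t s
  have h1 := hcS _ (box_meas (Fin.append t s))
  have h2 : {e : H₁ × H₂ | ((LinearEquiv.ofBijective G hbij e : dirSum H₁ H₂) :
      EuclideanSpace ℝ (Fin (n + m))) ∈ {x | ∀ i, |x i| ≤ Real.exp (Fin.append t s i)}} =
      {x : H₁ | ∀ i, |(x : EuclideanSpace ℝ (Fin n)) i| ≤ Real.exp (t i)} ×ˢ
      {x : H₂ | ∀ i, |(x : EuclideanSpace ℝ (Fin m)) i| ≤ Real.exp (s i)} := by
    ext q
    have e : ((LinearEquiv.ofBijective G hbij q : dirSum H₁ H₂) :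
      EuclideanSpace ℝ (Fin (n + m))) = F q := rfl
    simp only [mem_setOf_eq, mem_prod]
    rw [e]
    constructor
    · intro h
      constructor
      · intro i
        have := h (Fin.castAdd m i)
        rwa [hF1, Fin.append_left] at this
      · intro j
        have := h (Fin.natAdd n j)
        rwa [hF2, Fin.append_right] at this
    · rintro ⟨h3, h4⟩ i
      refine Fin.addCases (fun i => ?_) (fun j => ?_) i
      · rw [hF1, Fin.append_left]; exact h3 i
      · rw [hF2, Fin.append_right]; exact h4 j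
  rw [h2, Measure.prod_prod, ENNReal.toReal_mul] at h1
  rw [cubeVol_eq H₁, cubeVol_eq H₂]
  exact h1

end Pool.Agent.Lib.MP_fa837f_gt.TS.H30
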