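import Pool.Agent.Lib.MP_fa837f_gt.TS.Iface

/-!
Project TS (MP_fa837f_gt), module KID: the identity.
-/

set_option autoImplicit false

namespace Pool.Agent.Lib.MP_fa837f_gt.TS.H30

open Pool.Agent.Lib.MP_fa837f_gt.TS

theorem kid : KidStatement := by
  intro E p q a b P Q m n k l c d ξ x hE hp hq ha hb hk hl hp0 hq0 hξ
  have h1 : HasDerivAt (fun y => q y * k y) (-(Q x) * k x + q x * c x) x := hq.mul hk
  have h2 : HasDerivAt (fun y => p y * l y) (-(P x) * l x + p x * d x) x := hp.mul hl
  have h3 : HasDerivAt (fun y => p y * q y) (-(P x) * q x + p x * -(Q x)) x := hp.mul hq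
  have h4 : HasDerivAt (fun y => p y + q y - 1) (-(P x) + -(Q x)) x := (hp.add hq).sub_const 1
  have h5 := h3.mul h4
  have h6 := hξ.pow 2
  have h7 := h5.mul h6
  have h8 := ((h3.const_mul 2).mul hξ).mul (ha.add hb)
  have h9 := hE.mul (((h1.add h2).sub h7).sub h8)
  refine (show HasDerivAt (fun y => E y * (q y * k y + p y * l y -
      p y * q y * (p y + q y - 1) * ξ y ^ 2 - 2 * (p y * q y) * ξ y * (a y + b y))) _ x from
      h9).congr_deriv ?_
  simp only [Pi.mul_apply, Pi.add_apply, Pi.sub_apply, Pi.pow_apply]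
  field_simp
  ring

end Pool.Agent.Lib.MP_fa837f_gt.TS.H30
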