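import Pool.Agent.Lib.MP_fa837f_gt.TS.Iface

/-!
Project TS (MP_fa837f_gt), module NORM: parametrisation of a subspace with the first coordinate as
first parameter.
-/

set_option autoImplicit false

open MeasureTheory Set

namespace Pool.Agent.Lib.MP_fa837f_gt.TS.H30

open Pool.Agent.Lib.MP_fa837f_gt
open Pool.Agent.Lib.MP_fa837f_gt.TS

theorem exists_param {V : Type} [AddCommGroup V] [Module ℝ V] [FiniteDimensional ℝ V]
    (φ : V →ₗ[ℝ] ℝ) (v : V) (hv : φ v = 1) :
    ∃ (k : ℕ) (L : (ℝ × (Fin k → ℝ)) ≃ₗ[ℝ] V), ∀ q, φ (L q) = q.1 := by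
  let K := LinearMap.ker φ
  let e : K ≃ₗ[ℝ] (Fin (Module.finrank ℝ K) → ℝ) := (Module.finBasis ℝ K).equivFun
  let L : (ℝ × (Fin (Module.finrank ℝ K) → ℝ)) →ₗ[ℝ] V :=
    (LinearMap.toSpanSingleton ℝ V v).coprod (K.subtype ∘ₗ (e.symm : _ →ₗ[ℝ] K))
  have hL : ∀ q, L q = q.1 • v + ((e.symm q.2 : K) : V) := by
    intro q
    simp [L]
  have hφ : ∀ q, φ (L q) = q.1 := by
    intro q
    rw [hL, map_add, map_smul, hv]
    have h1 : φ ((e.symm q.2 : K) : V) = 0 := (e.symm q.2).2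
    rw [h1]
    simp
  have hinj : Function.Injective L := by
    rw [← LinearMap.ker_eq_bot, LinearMap.ker_eq_bot']
    intro q hq
    have h1 : q.1 = 0 := by rw [← hφ q, hq, map_zero]
    rw [hL, h1, zero_smul, zero_add] at hq
    have h2 : e.symm q.2 = 0 := Subtype.ext hq
    have h3 : q.2 = 0 := by
      have := congrArg e h2
      simpa using this
    exact Prod.ext h1 h3
  have hsurj : Function.Surjective L := by
    intro x
    have hx : x - φ x • v ∈ K := by
      show φ (x - φ x • v) = 0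
      rw [map_sub, map_smul, hv]
      simp
    refine ⟨(φ x, e ⟨x - φ x • v, hx⟩), ?_⟩
    rw [hL]
    simp
  exact ⟨_, LinearEquiv.ofBijective L ⟨hinj, hsurj⟩, fun q => hφ q⟩

theorem norm_module : NormStatement := by
  intro n H hH
  obtain ⟨x, hx, hx0⟩ := hH
  let φ : H →ₗ[ℝ] ℝ :=
    { toFun := fun y => (y : EuclideanSpace ℝ (Fin (n + 1))) 0
      map_add' := fun y z => rfl
      map_smul' := fun c y => rfl }
  have hv : φ ((x 0)⁻¹ • ⟨x, hx⟩) = 1 := by
    rw [map_smul]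
    exact inv_mul_cancel₀ hx0
  exact exists_param φ _ hv

end Pool.Agent.Lib.MP_fa837f_gt.TS.H30
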