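import Pool.Agent.Lib.MP_fa837f_gt.TS.Iface

/-!
Project TS (MP_fa837f_gt), module PAR: Lebesgue measure on a subspace in an arbitrary
parametrisation.
-/

set_option autoImplicit false

open MeasureTheory Set

namespace Pool.Agent.Lib.MP_fa837f_gt.TS.H30

open Pool.Agent.Lib.MP_fa837f_gt
open Pool.Agent.Lib.MP_fa837f_gt.TS

theorem par : ParStatement := by
  intro n H E _ _ _ _ _ μ _ L
  -- L as a homeomorphism
  let L' : E ≃L[ℝ] H := L.toContinuousLinearEquiv
  have hL' : ∀ e, L' e = L e := fun e => rfl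
  have hHaar : (lebesgue H).IsAddHaarMeasure := by
    unfold lebesgue
    infer_instance
  have hmap : (μ.map L').IsAddHaarMeasure := L'.isAddHaarMeasure_map μ
  obtain ⟨c, hc0, hctop, hc⟩ : ∃ c : ENNReal, c ≠ 0 ∧ c ≠ ⊤ ∧ lebesgue H = c • μ.map L' := by
    refine ⟨(lebesgue H).addHaarScalarFactor (μ.map L'), ?_, ?_, ?_⟩
    · have := Measure.addHaarScalarFactor_pos_of_isAddHaarMeasure (lebesgue H) (μ.map L')
      exact_mod_cast this.ne'
    · exact ENNReal.coe_ne_top
    · exact Measure.isAddLeftInvariant_eq_smul (lebesgue H) (μ.map L')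
  refine ⟨c.toReal, ENNReal.toReal_pos hc0 hctop, ?_⟩
  intro S hS
  have hval : Measurable (Subtype.val : H → EuclideanSpace ℝ (Fin n)) := measurable_subtype_coe
  have h1 : lebesgueOn H S = lebesgue H (Subtype.val ⁻¹' S) := by
    unfold lebesgueOn
    rw [Measure.map_apply hval hS]
  have h2 : (μ.map L') (Subtype.val ⁻¹' S) = μ {e | ((L e : H) : EuclideanSpace ℝ (Fin n)) ∈ S} := by
    rw [Measure.map_apply L'.continuous.measurable (hval hS)]
    rfl
  rw [h1, hc, Measure.smul_apply, smul_eq_mul, ENNReal.toReal_mul, h2]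

end Pool.Agent.Lib.MP_fa837f_gt.TS.H30
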